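import Pool.Agent.Helper80.PR.Core

/-!
MP_3976d4_co: maps with carriers whose points of period prime to `p` form a thin set.
-/

set_option autoImplicit false

namespace Pool.Agent.Helper73.PP2

open Filter
open scoped Classical
open Pool.Agent.Helper43.SP
open Pool.Agent.Helper43.SP.FK
open Pool.Agent.Helper73.PP (Carr exact_UP2)

noncomputable section

variable {P : Type*} [PartialOrder P]

/-- The theorem for a map with carriers. -/
theorem main_carr (s : P) (f : P → P) (R Q : Finset P → P) (hc : Carr s f R Q)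
    (hn : ∃ n : ℕ, ∀ c : Finset P, IsChain (· ≤ ·) (c : Set P) → c.card ≤ n)
    (hf : Monotone f) (p : ℕ) (hp : p.Prime)
    (hper : Thin {x : P | ∃ j, ¬ p ∣ j ∧ f^[j] x = x}) : ∃ x, f x = x := by
  have : Fact p.Prime := ⟨hp⟩
  obtain ⟨y, hy⟩ := Helper80.PR.fixed_of_thin (FF f) hp (ZMod p) (finLen_DL hf hn)
    (exact_UP2 s f R Q hc hf) (prime_thin hf hper)
  exact fixed_of_fixed hy

end

end Pool.Agent.Helper73.PP2
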