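import Pool.Agent.Helper73.PP2.Fix

/-!
MP_3976d4_co: order-preserving maps with `f^m s ≤ s`, if `s ∧ x` or all joins `d ∨ x`, `d ≤ s`,
exist (as in lattices without 0, 1 and the complements of `s`).
-/

set_option autoImplicit false

universe u

namespace Pool.Agent.Helper73.PP2

open Pool.Agent
open Pool.Agent.Helper31.FX (CoverTame coverTame_dual)
open Pool.Agent.Helper73.PP (Fx fx_map fr exists_down exists_up)

variable {P : Type u} [PartialOrder P]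

theorem mono_main (hfin : ∃ n : ℕ, ∀ c : Finset P, IsChain (· ≤ ·) (c : Set P) → c.card ≤ n)
    (f : P → P) (hf : Monotone f) (m : ℕ) (s : P) (hs : f^[m] s ≤ s)
    (h1 : ∀ x : P, f^[m] x = x →
      (∃ z : P, IsGLB ({s, x} : Set P) z) ∨
        ∀ d : P, d ≤ s → f^[m] d = d → ∃ z : P, IsLUB ({d, x} : Set P) z)
    (h : (∃ p : ℕ, p.Prime ∧ Thin {x : P | f^[m] x = x ∧ ∃ j : ℕ, ¬ p ∣ j ∧ f^[j] x = x}) ∨
      CoverTame {d : P | d < s ∧ f^[m] d = d}) : ∃ x : P, f x = x := by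
  classical
  have hg : Monotone f^[m] := hf.iterate m
  obtain ⟨s0, hs1, hs2, hs3⟩ := exists_down hfin f^[m] hg s hs
  -- the meets
  have hb : ∀ y : P, ∃ b : P, f^[m] b = b ∧ (f^[m] y = y → (∃ z : P, IsGLB ({s, y} : Set P) z) →
      b ≤ s ∧ b ≤ y ∧ ∀ w, f^[m] w = w → w ≤ s → w ≤ y → w ≤ b) := by
    intro y
    by_cases hy : f^[m] y = y ∧ ∃ z : P, IsGLB ({s, y} : Set P) z
    · obtain ⟨hy1, z, hz⟩ := hy
      have hzs : z ≤ s := hz.1 (Set.mem_insert _ _)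
      have hzy : z ≤ y := hz.1 (Set.mem_insert_of_mem _ rfl)
      have hgz : f^[m] z ≤ z := by
        refine hz.2 ?_
        rintro w (rfl | rfl)
        · exact (hg hzs).trans hs
        · exact (hg hzy).trans hy1.le
      obtain ⟨b, h3, h4, h5⟩ := exists_down hfin f^[m] hg z hgz
      refine ⟨b, h3, fun _ _ => ⟨h4.trans hzs, h4.trans hzy, ?_⟩⟩
      intro w hw hws hwy
      refine h5 w hw (hz.2 ?_)
      rintro v (rfl | rfl)
      · exact hws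
      · exact hwy
    · exact ⟨s0, hs1, fun h3 h4 => absurd ⟨h3, h4⟩ hy⟩
  choose be0 hbe1 hbe2 using hb
  -- the joins
  have hlub : ∀ d y : Fx f m, d.1 ≤ s → (¬ ∃ z : P, IsGLB ({s, y.1} : Set P) z) →
      ∃ z : Fx f m, IsLUB ({d, y} : Set (Fx f m)) z := by
    intro d y hd hy
    obtain ⟨u, hu⟩ := (h1 y.1 y.2).resolve_left hy d.1 hd d.2
    have hdu : d.1 ≤ u := hu.1 (Set.mem_insert _ _)
    have hyu : y.1 ≤ u := hu.1 (Set.mem_insert_of_mem _ rfl)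
    have hgu : u ≤ f^[m] u := by
      refine hu.2 ?_
      rintro w (rfl | rfl)
      · exact d.2.symm.le.trans (hg hdu)
      · exact y.2.symm.le.trans (hg hyu)
    obtain ⟨z, h3, h4, h5⟩ := exists_up hfin f^[m] hg u hgu
    refine ⟨⟨z, h3⟩, ?_, ?_⟩
    · rintro w (rfl | rfl)
      · exact hdu.trans h4
      · exact hyu.trans h4
    · intro w hw
      refine h5 w.1 w.2 (hu.2 ?_)
      rintro v (rfl | rfl)
      · exact hw (Set.mem_insert _ _)
      · exact hw (Set.mem_insert_of_mem _ rfl)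
  have hfx : ∀ x : Fx f m, f^[m] (f x.1) = f x.1 := fun x => fx_map f m x.2
  have hW : ∀ w : Fx f m, w ∉ {x : Fx f m | ¬ ∃ z : P, IsGLB ({s, f x.1} : Set P) z} →
      ∃ z : P, IsGLB ({s, f w.1} : Set P) z := by
    intro w hw
    simpa using hw
  refine main_fx hfin f hf m ⟨s0, hs1⟩
    {x : Fx f m | ¬ ∃ z : P, IsGLB ({s, f x.1} : Set P) z} ?_
    (fun w => ⟨be0 (f w.1), hbe1 _⟩) ?_ ?_ ?_ ?_
  · intro x hx
    exact hlub ⟨s0, hs1⟩ (fr f m x) hs2 hx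
  · intro w hw
    obtain ⟨h3, h4, h5⟩ := hbe2 (f w.1) (hfx w) (hW w hw)
    exact ⟨hs3 _ (hbe1 _) h3, h4⟩
  · intro v w hv hw hvw
    obtain ⟨h3, h4, h5⟩ := hbe2 (f v.1) (hfx v) (hW v hv)
    obtain ⟨h6, h7, h8⟩ := hbe2 (f w.1) (hfx w) (hW w hw)
    exact h8 _ (hbe1 _) h3 (h4.trans (hf hvw))
  · intro x w _ hx hw _
    obtain ⟨h3, h4, h5⟩ := hbe2 (f w.1) (hfx w) (hW w hw)
    exact hlub ⟨be0 (f w.1), hbe1 _⟩ (fr f m x) h3 hx
  · rcases h with h | h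
    · exact Or.inl h
    · refine Or.inr (Helper73.FX.coverTame_mono ?_ h)
      rintro d ⟨hd1, hd2⟩
      exact ⟨lt_of_lt_of_le hd1 hs2, hd2⟩

/-- The order dual of `mono_main`. -/
theorem mono_main_dual
    (hfin : ∃ n : ℕ, ∀ c : Finset P, IsChain (· ≤ ·) (c : Set P) → c.card ≤ n)
    (f : P → P) (hf : Monotone f) (m : ℕ) (s : P) (hs : s ≤ f^[m] s)
    (h1 : ∀ x : P, f^[m] x = x →
      (∃ z : P, IsLUB ({s, x} : Set P) z) ∨
        ∀ d : P, s ≤ d → f^[m] d = d → ∃ z : P, IsGLB ({d, x} : Set P) z)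
    (h : (∃ p : ℕ, p.Prime ∧ Thin {x : P | f^[m] x = x ∧ ∃ j : ℕ, ¬ p ∣ j ∧ f^[j] x = x}) ∨
      CoverTame {d : P | s < d ∧ f^[m] d = d}) : ∃ x : P, f x = x := by
  obtain ⟨n, hn⟩ := hfin
  refine mono_main (P := Pᵒᵈ) ⟨n, fun c hc => hn c (by
    intro a ha b hb hab
    exact (hc ha hb hab).symm)⟩ (fun x => OrderDual.toDual (f (OrderDual.ofDual x)))
    (fun a b hab => hf hab) m (OrderDual.toDual s) hs
    (fun x hx => h1 (OrderDual.ofDual x) hx) ?_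
  rcases h with ⟨p, hp, h⟩ | h
  · exact Or.inl ⟨p, hp, thin_dual h⟩
  · exact Or.inr (coverTame_dual _ h)

end Pool.Agent.Helper73.PP2
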