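import Pool.Agent.Helper73.PP2.Auto
import Pool.Agent.Helper73.PP2.Mono

/-!
MP_3976d4_co: the final forms of the theorems on periods.
-/

set_option autoImplicit false

universe u

namespace Pool.Agent.Helper73.PP2

open Pool.Agent
open Pool.Agent.Helper31.FX (CoverTame coverTame_of_not_hasBoundedRay)
open Pool.Agent.Helper73.PP (auto_eq)

/-- the alternatives for the points of period dividing `m` -/
def Few {P : Type u} [PartialOrder P] (f : P → P) (m : ℕ) (E : Set P) : Prop :=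
  (∃ p k : ℕ, p.Prime ∧ m = p ^ k) ∨
    (∃ p : ℕ, p.Prime ∧ Thin {x : P | f^[m] x = x ∧ ∃ j : ℕ, ¬ p ∣ j ∧ f^[j] x = x}) ∨
    Thin {d : P | d ∈ E ∧ f^[m] d = d}

lemma coverTame_of_thin {P : Type u} [PartialOrder P] {E : Set P} (h : Thin E) : CoverTame E := by
  rcases h with h | h
  · refine coverTame_of_not_hasBoundedRay _ ?_
    rintro ⟨v, h1, h2, h3, -⟩
    exact h ⟨v, h1, h2, h3⟩
  · exact Helper98.HX.coverTame_of_no_three _ fun a ha b hb c hc hab => h a ha b hb c hc hab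

lemma few_cases {P : Type u} [PartialOrder P] (f : P → P) (m : ℕ) (E : Set P) (h : Few f m E)
    (hno : ¬ ∃ x, f x = x) :
    (∃ p : ℕ, p.Prime ∧ Thin {x : P | f^[m] x = x ∧ ∃ j : ℕ, ¬ p ∣ j ∧ f^[j] x = x}) ∨
      CoverTame {d : P | d ∈ E ∧ f^[m] d = d} := by
  rcases h with ⟨p, k, hp, rfl⟩ | h | h
  · refine Or.inl ⟨p, hp, ?_⟩
    have : {x : P | f^[p ^ k] x = x ∧ ∃ j : ℕ, ¬ p ∣ j ∧ f^[j] x = x} = ∅ := by
      rw [Set.eq_empty_iff_forall_notMem]
      rintro x ⟨h1, j, h2, h3⟩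
      apply hno
      refine ⟨x, ?_⟩
      have h4 : Function.IsPeriodicPt f (p ^ k) x := h1
      have h5 : Function.IsPeriodicPt f j x := h3
      have h6 := h4.gcd h5
      have h7 : Nat.gcd (p ^ k) j = 1 :=
        Nat.Coprime.pow_left k ((Nat.Prime.coprime_iff_not_dvd hp).2 h2)
      rw [h7] at h6
      exact h6
    rw [this]
    exact thin_empty
  · exact Or.inl h
  · exact Or.inr (coverTame_of_thin h)

section auto

variable {P : Type u} [PartialOrder P]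

theorem auto_final (hfin : ∃ n : ℕ, ∀ c : Finset P, IsChain (· ≤ ·) (c : Set P) → c.card ≤ n)
    (f : P ≃o P) (m : ℕ) (s : P) (hs : (⇑f)^[m] s ≤ s ∨ s ≤ (⇑f)^[m] s)
    (h1 : ∀ x : P, (⇑f)^[m] x = x →
      (∃ z : P, IsLUB ({s, x} : Set P) z) ∨ (∃ z : P, IsGLB ({s, x} : Set P) z))
    (h2 : ∀ x y : P, x < y → (⇑f)^[m] x = x → (⇑f)^[m] y = y →
      (¬ ∃ z : P, IsGLB ({s, x} : Set P) z) →
      ∀ a : P, IsGLB ({s, y} : Set P) a → ∃ z : P, IsLUB ({a, x} : Set P) z)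
    (h : Few (⇑f) m {d : P | d < s}) : ∃ x : P, f x = x := by
  by_contra hno
  exact hno (auto_main hfin f m s (auto_eq hfin (⇑f) f.monotone f.injective m s hs) h1 h2
    (few_cases _ _ _ h hno))

theorem auto_final_dual
    (hfin : ∃ n : ℕ, ∀ c : Finset P, IsChain (· ≤ ·) (c : Set P) → c.card ≤ n)
    (f : P ≃o P) (m : ℕ) (s : P) (hs : (⇑f)^[m] s ≤ s ∨ s ≤ (⇑f)^[m] s)
    (h1 : ∀ x : P, (⇑f)^[m] x = x →
      (∃ z : P, IsLUB ({s, x} : Set P) z) ∨ (∃ z : P, IsGLB ({s, x} : Set P) z))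
    (h2 : ∀ x y : P, y < x → (⇑f)^[m] x = x → (⇑f)^[m] y = y →
      (¬ ∃ z : P, IsLUB ({s, x} : Set P) z) →
      ∀ a : P, IsLUB ({s, y} : Set P) a → ∃ z : P, IsGLB ({a, x} : Set P) z)
    (h : Few (⇑f) m {d : P | s < d}) : ∃ x : P, f x = x := by
  by_contra hno
  exact hno (auto_main_dual hfin f m s (auto_eq hfin (⇑f) f.monotone f.injective m s hs) h1 h2
    (few_cases _ _ _ h hno))

theorem mono_final (hfin : ∃ n : ℕ, ∀ c : Finset P, IsChain (· ≤ ·) (c : Set P) → c.card ≤ n)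
    (f : P → P) (hf : Monotone f) (m : ℕ) (s : P) (hs : f^[m] s ≤ s)
    (h1 : ∀ x : P, f^[m] x = x →
      (∃ z : P, IsGLB ({s, x} : Set P) z) ∨
        ∀ d : P, d ≤ s → f^[m] d = d → ∃ z : P, IsLUB ({d, x} : Set P) z)
    (h : Few f m {d : P | d < s}) : ∃ x : P, f x = x := by
  by_contra hno
  exact hno (mono_main hfin f hf m s hs h1 (few_cases _ _ _ h hno))

theorem mono_final_dual
    (hfin : ∃ n : ℕ, ∀ c : Finset P, IsChain (· ≤ ·) (c : Set P) → c.card ≤ n)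
    (f : P → P) (hf : Monotone f) (m : ℕ) (s : P) (hs : s ≤ f^[m] s)
    (h1 : ∀ x : P, f^[m] x = x →
      (∃ z : P, IsLUB ({s, x} : Set P) z) ∨
        ∀ d : P, s ≤ d → f^[m] d = d → ∃ z : P, IsGLB ({d, x} : Set P) z)
    (h : Few f m {d : P | s < d}) : ∃ x : P, f x = x := by
  by_contra hno
  exact hno (mono_main_dual hfin f hf m s hs h1 (few_cases _ _ _ h hno))

end auto

end Pool.Agent.Helper73.PP2
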