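import Pool.Agent.Helper73.PP2.Sel

/-!
MP_3976d4_co: maps with a periodic special element: reduction to the points of period dividing `m`.
-/

set_option autoImplicit false

universe u

namespace Pool.Agent.Helper73.PP2

open Pool.Agent
open Pool.Agent.Helper31.FX (CoverTame)
open Pool.Agent.Helper73.PP (Fx fx_map fr fr_iter fr_mono fx_fin fx_tame)

lemma fr_thin {P : Type u} [PartialOrder P] (f : P → P) (m p : ℕ)
    (h : Thin {x : P | f^[m] x = x ∧ ∃ j : ℕ, ¬ p ∣ j ∧ f^[j] x = x}) :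
    Thin {x : Fx f m | ∃ j : ℕ, ¬ p ∣ j ∧ (fr f m)^[j] x = x} := by
  refine thin_sub h _ _ ?_
  rintro x ⟨j, h1, h2⟩
  refine ⟨x.2, j, h1, ?_⟩
  rw [← fr_iter, h2]

variable {P : Type u} [PartialOrder P]

/-- The two conclusions: selection data on the points of period dividing `m`. -/
theorem main_fx (hfin : ∃ n : ℕ, ∀ c : Finset P, IsChain (· ≤ ·) (c : Set P) → c.card ≤ n)
    (f : P → P) (hf : Monotone f) (m : ℕ) (s : Fx f m)
    (A : Set (Fx f m)) (hA : ∀ x ∈ A, ∃ z : Fx f m, IsLUB ({s, fr f m x} : Set (Fx f m)) z)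
    (be : Fx f m → Fx f m) (hbe : ∀ w, w ∉ A → be w ≤ s ∧ be w ≤ fr f m w)
    (hbem : ∀ v w, v ∉ A → w ∉ A → v ≤ w → be v ≤ be w)
    (hj : ∀ x w : Fx f m, x < w → x ∈ A → w ∉ A → be w < s →
      ∃ z : Fx f m, IsLUB ({be w, fr f m x} : Set (Fx f m)) z)
    (h : (∃ p : ℕ, p.Prime ∧ Thin {x : P | f^[m] x = x ∧ ∃ j : ℕ, ¬ p ∣ j ∧ f^[j] x = x}) ∨
      CoverTame {d : P | d < s.1 ∧ f^[m] d = d}) : ∃ x : P, f x = x := by
  have key : ∃ x : Fx f m, fr f m x = x := by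
    rcases h with ⟨p, hp, hper⟩ | ht
    · exact main_sel (Fx f m) (fx_fin hfin f m) s (fr f m) (fr_mono f hf m) A hA be hbe hbem hj p hp
        (fr_thin f m p hper)
    · refine Helper73.FX.main_cover3 (Fx f m) (fx_fin hfin f m) s (fr f m) (fr_mono f hf m) A hA be
        hbe hbem hj ?_
      refine Helper73.FX.coverTame_mono ?_ (fx_tame f m _ (fun e he => he.2) ht)
      rintro e ⟨w, _, hw, rfl⟩
      exact ⟨hw, (be w).2⟩
  obtain ⟨x, hx⟩ := key
  exact ⟨x.1, congrArg Subtype.val hx⟩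

end Pool.Agent.Helper73.PP2
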