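import Pool.Agent.Helper73.PP.Lat

/-!
MP_3976d4_co: sets without rays or without chains of three elements.
-/

set_option autoImplicit false

namespace Pool.Agent.Helper73.PP2

open Filter
open scoped Classical
open Pool.Agent.Helper43.SP
open Pool.Agent.Helper43.SP.FK

/-- The set `E` is thin: its comparability graph contains no ray, or it contains no chain of three
elements. -/
def Thin {P : Type*} [PartialOrder P] (E : Set P) : Prop :=
  (¬ ∃ v : ℕ → P, Function.Injective v ∧ (∀ i, v i ∈ E) ∧ ∀ i, v i ≤ v (i + 1) ∨ v (i + 1) ≤ v i) ∨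
    (∀ a ∈ E, ∀ b ∈ E, ∀ c ∈ E, a < b → ¬ b < c)

variable {P Q : Type*} [PartialOrder P] [PartialOrder Q]

lemma thin_of_finite {E : Set P} (h : E.Finite) : Thin E := by
  left
  rintro ⟨v, h1, h2, -⟩
  exact Set.infinite_range_of_injective h1 (h.subset (Set.range_subset_iff.2 h2))

lemma thin_empty : Thin (∅ : Set P) := thin_of_finite Set.finite_empty

/-- Pull back of thin sets under maps which reflect and preserve the order on a set. -/
lemma thin_pull {E : Set P} (h : Thin E) (D : Set Q) (r : Q → P) (hr : ∀ y ∈ D, r y ∈ E)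
    (hle : ∀ y ∈ D, ∀ z ∈ D, (y ≤ z ↔ r y ≤ r z)) : Thin D := by
  have hinj : ∀ y ∈ D, ∀ z ∈ D, r y = r z → y = z := by
    intro y hy z hz e
    exact le_antisymm ((hle y hy z hz).2 e.le) ((hle z hz y hy).2 e.ge)
  have hlt : ∀ y ∈ D, ∀ z ∈ D, y < z → r y < r z := by
    intro y hy z hz hyz
    refine lt_of_le_of_ne ((hle y hy z hz).1 hyz.le) ?_
    intro e
    exact hyz.ne (hinj y hy z hz e)
  rcases h with h | h
  · left
    rintro ⟨v, h1, h2, h3⟩
    refine h ⟨fun i => r (v i), ?_, fun i => hr _ (h2 i), fun i => ?_⟩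
    · intro i j e
      exact h1 (hinj _ (h2 i) _ (h2 j) e)
    · rcases h3 i with h4 | h4
      · exact Or.inl ((hle _ (h2 i) _ (h2 (i + 1))).1 h4)
      · exact Or.inr ((hle _ (h2 (i + 1)) _ (h2 i)).1 h4)
  · right
    intro a ha b hb c hc hab hbc
    exact h _ (hr a ha) _ (hr b hb) _ (hr c hc) (hlt a ha b hb hab) (hlt b hb c hc hbc)

lemma thin_mono {E D : Set P} (h : Thin E) (hDE : D ⊆ E) : Thin D :=
  thin_pull h D id (fun y hy => hDE hy) (fun _ _ _ _ => Iff.rfl)

lemma thin_sub {E : Set P} (h : Thin E) (q : P → Prop) (D : Set {x : P // q x})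
    (hD : ∀ x ∈ D, x.1 ∈ E) : Thin D :=
  thin_pull h D Subtype.val hD (fun _ _ _ _ => Iff.rfl)

/-- `Thin` is self-dual. -/
lemma thin_dual {E : Set P} (h : Thin E) : Thin (OrderDual.ofDual ⁻¹' E : Set Pᵒᵈ) := by
  rcases h with h | h
  · left
    rintro ⟨v, h1, h2, h3⟩
    exact h ⟨fun i => OrderDual.ofDual (v i), h1, h2, fun i => (h3 i).symm⟩
  · right
    intro a ha b hb c hc hab hbc
    exact h _ hc _ hb _ ha hbc hab

variable {f : P → P}

/-- The periodic points of the direct limit are the images of the periodic points of `P`. -/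
lemma per_rep {p : ℕ} (y : DL f) (h : ∃ j, ¬ p ∣ j ∧ (FF f)^[j] y = y) :
    ∃ x : P, (∃ j, ¬ p ∣ j ∧ f^[j] x = x) ∧ em f 0 x = y := by
  obtain ⟨k, hk1, hk⟩ := h
  have hk0 : 0 < k := Nat.pos_of_ne_zero (by rintro rfl; exact hk1 (dvd_zero p))
  obtain ⟨n, hn⟩ := eventually_atTop.mp (((rep_FF_iter y k).and (rep_add y k)).and (em_rep y))
  have hi : n ≤ k * n := Nat.le_mul_of_pos_left n hk0
  obtain ⟨⟨h1, h2⟩, h3⟩ := hn (k * n) hi
  rw [hk] at h1
  have h4 : f^[k] (rep y (k * n)) = rep y (k * n) := by rw [← h2, ← h1]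
  refine ⟨rep y (k * n), ⟨k, hk1, h4⟩, Eq.trans ?_ h3⟩
  unfold Pool.Agent.Helper43.SP.em
  apply mk_eq_mk
  refine eventually_atTop.mpr ⟨k * n, fun j hj => ?_⟩
  change f^[j - 0] _ = f^[j - k * n] _
  have h5 : f^[k * n] (rep y (k * n)) = rep y (k * n) := by
    rw [Function.iterate_mul]
    exact Function.iterate_fixed h4 n
  have h6 : j - 0 = (j - k * n) + k * n := by omega
  rw [h6, Function.iterate_add_apply, h5]

lemma em_le_iff (hf : Monotone f) {x x' : P} {k k' : ℕ} (hk0 : 0 < k) (hk0' : 0 < k')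
    (hk : f^[k] x = x) (hk' : f^[k'] x' = x') : em f 0 x ≤ em f 0 x' ↔ x ≤ x' := by
  constructor
  · intro h
    have h' : mk (emS f 0 x) ≤ mk (emS f 0 x') := h
    rw [mk_le_mk] at h'
    obtain ⟨n, hn⟩ := eventually_atTop.mp h'
    have h1 := hn (k * k' * n) (Nat.le_mul_of_pos_left n (Nat.mul_pos hk0 hk0'))
    change f^[k * k' * n - 0] x ≤ f^[k * k' * n - 0] x' at h1
    have e1 : f^[k * k' * n - 0] x = x := by
      rw [Nat.sub_zero, Nat.mul_assoc, Function.iterate_mul]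
      exact Function.iterate_fixed hk _
    have e2 : f^[k * k' * n - 0] x' = x' := by
      rw [Nat.sub_zero, Nat.mul_comm k k', Nat.mul_assoc, Function.iterate_mul]
      exact Function.iterate_fixed hk' _
    rw [e1, e2] at h1
    exact h1
  · intro h
    exact em_mono hf 0 h

/-- Thinness of the periodic points carries over to the direct limit. -/
lemma prime_thin (hf : Monotone f) {p : ℕ} (h : Thin {x : P | ∃ j, ¬ p ∣ j ∧ f^[j] x = x}) :
    Thin {y : DL f | ∃ j, ¬ p ∣ j ∧ (FF f)^[j] y = y} := by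
  have hex : ∀ y : DL f, ∃ x : P, (∃ j, ¬ p ∣ j ∧ (FF f)^[j] y = y) →
      (∃ j, ¬ p ∣ j ∧ f^[j] x = x) ∧ em f 0 x = y := by
    intro y
    by_cases hy : ∃ j, ¬ p ∣ j ∧ (FF f)^[j] y = y
    · obtain ⟨x, h1, h2⟩ := per_rep y hy
      exact ⟨x, fun _ => ⟨h1, h2⟩⟩
    · exact ⟨rep y 0, fun h' => absurd h' hy⟩
  choose r hr using hex
  refine thin_pull h _ r (fun y hy => (hr y hy).1) ?_
  intro y hy z hz
  obtain ⟨⟨j, hj1, hj2⟩, e1⟩ := hr y hy
  obtain ⟨⟨l, hl1, hl2⟩, e2⟩ := hr z hz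
  have hj0 : 0 < j := Nat.pos_of_ne_zero (by rintro rfl; exact hj1 (dvd_zero p))
  have hl0 : 0 < l := Nat.pos_of_ne_zero (by rintro rfl; exact hl1 (dvd_zero p))
  conv_lhs => rw [← e1, ← e2]
  exact em_le_iff hf hj0 hl0 hj2 hl2

end Pool.Agent.Helper73.PP2
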