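import Pool.Agent.Helper43.SP.Lef

/-!
MP_3976d4_co: an order automorphism with finite orbits of an acyclic poset (over a field) without
chains of three elements has a fixed point. The finite invariant acyclic subset: the vertices of
the fillings of the differences of the points of one orbit.
-/

set_option autoImplicit false

namespace Pool.Agent.Helper43.SP.FK.Tree

open scoped Classical

noncomputable section

variable {k : Type*} [Field k] {X : Type*} [PartialOrder X]

lemma hom_zero {U : Set X} (h3 : ∀ a ∈ U, ∀ b ∈ U, ∀ c ∈ U, a < b → ¬ b < c) {i : ℕ} (hi : 3 ≤ i)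
    {w : Ch X →₀ k} (hw : Supp (InU U) w) (hwi : Hom i w) : w = 0 := by
  ext S
  by_contra hne
  have hne' : S ∈ w.support := Finsupp.mem_support_iff.mpr hne
  have hS : InU U S := hw.mem hne'
  have hc : S.1.card = i := Supp.mem hwi hne'
  have h2 : 2 < S.1.card := by omega
  obtain ⟨a, b, c, ha, hb, hc', hab, hac, hbc⟩ := Finset.two_lt_card_iff.1 h2
  have hu : ∀ x ∈ S.1, x ∈ U := fun x hx => hS (Finset.mem_coe.2 hx)
  have hlt : ∀ x ∈ S.1, ∀ y ∈ S.1, x ≠ y → x < y ∨ y < x := by
    intro x hx y hy hxy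
    rcases S.2 (Finset.mem_coe.2 hx) (Finset.mem_coe.2 hy) hxy with h | h
    · exact Or.inl (lt_of_le_of_ne h hxy)
    · exact Or.inr (lt_of_le_of_ne h hxy.symm)
  rcases hlt a ha b hb hab with h | h <;> rcases hlt a ha c hc' hac with h' | h' <;>
    rcases hlt b hb c hc' hbc with h'' | h''
  · exact h3 a (hu a ha) b (hu b hb) c (hu c hc') h h''
  · exact h3 a (hu a ha) c (hu c hc') b (hu b hb) h' h''
  · exact h3 a (hu a ha) b (hu b hb) c (hu c hc') h h''
  · exact h3 c (hu c hc') a (hu a ha) b (hu b hb) h' h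
  · exact h3 b (hu b hb) a (hu a ha) c (hu c hc') h h'
  · exact h3 b (hu b hb) a (hu a ha) c (hu c hc') h h'
  · exact h3 b (hu b hb) c (hu c hc') a (hu a ha) h'' h'
  · exact h3 c (hu c hc') b (hu b hb) a (hu a ha) h'' h

lemma bd_edge (S : Ch X) {u v : X} (huv : u < v) (hS : S.1 = {u, v}) :
    bd k X (dl k S) = dl k (sg v) - dl k (sg u) := by
  have hne : u ≠ v := huv.ne
  have e1 : er S u = sg v := by
    apply Subtype.ext
    rw [er_coe, hS]
    exact Finset.erase_insert (by simpa using hne)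
  have e2 : er S v = sg u := by
    apply Subtype.ext
    rw [er_coe, hS, Finset.pair_comm]
    exact Finset.erase_insert (by simpa using hne.symm)
  have e3 : sgn k S u = 1 := by
    unfold sgn
    have : S.1.filter (· < u) = ∅ := by
      rw [Finset.filter_eq_empty_iff, hS]
      intro x hx
      rcases Finset.mem_insert.1 hx with rfl | hx
      · exact lt_irrefl _
      · rw [Finset.mem_singleton.1 hx]
        exact not_lt_of_gt huv
    rw [this]
    simp
  have e4 : sgn k S v = -1 := by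
    unfold sgn
    have : S.1.filter (· < v) = {u} := by
      ext x
      rw [Finset.mem_filter, hS, Finset.mem_insert, Finset.mem_singleton, Finset.mem_singleton]
      constructor
      · rintro ⟨rfl | rfl, h⟩
        · rfl
        · exact absurd h (lt_irrefl _)
      · rintro rfl
        exact ⟨Or.inl rfl, huv⟩
    rw [this]
    simp
  rw [bd_dl, Finset.sum_congr hS (fun _ _ => rfl), Finset.sum_pair hne, e1, e2, e3, e4, one_smul,
    neg_one_smul, sub_eq_add_neg]

lemma uniq {U : Set X} (h3 : ∀ a ∈ U, ∀ b ∈ U, ∀ c ∈ U, a < b → ¬ b < c) (hex : GEx k U)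
    {w : Ch X →₀ k} (hw : Supp (InU U) w) (hw2 : Hom 2 w) (hb : bd k X w = 0) : w = 0 := by
  obtain ⟨w', h1, h2, h4⟩ := hex 2 w hw hw2 hb
  rw [← h4, hom_zero h3 le_rfl h1 h2, map_zero]

lemma supp_sg {U : Set X} {a : X} (ha : a ∈ U) : Supp (InU U) (dl k (sg a)) := by
  refine Supp.dl ?_
  intro x hx
  have : x = a := by simpa [sg] using hx
  rw [this]
  exact ha

lemma hom_sg (a : X) : Hom 1 (dl k (sg a)) := by
  refine Supp.dl ?_
  simp [sg]

lemma exists_fill {U : Set X} (hex : GEx k U) {a b : X} (ha : a ∈ U) (hb : b ∈ U) :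
    ∃ w : Ch X →₀ k, Supp (InU U) w ∧ Hom 2 w ∧ bd k X w = dl k (sg b) - dl k (sg a) := by
  refine hex 1 _ ((supp_sg hb).sub (supp_sg ha)) (Supp.sub (hom_sg b) (hom_sg a)) ?_
  rw [map_sub, bd_sg, bd_sg, sub_self]

/-- `b` can be reached from `a` inside `K` -/
def Rc (k : Type*) [Field k] {X : Type*} [PartialOrder X] (K : Set X) (a b : X) : Prop :=
  ∃ w : Ch X →₀ k, Supp (InU K) w ∧ Hom 2 w ∧ bd k X w = dl k (sg b) - dl k (sg a)

lemma Rc.refl (K : Set X) (a : X) : Rc k K a a :=
  ⟨0, Supp.zero _, Supp.zero _, by rw [map_zero, sub_self]⟩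

lemma Rc.trans {K : Set X} {a b c : X} (h : Rc k K a b) (h' : Rc k K b c) : Rc k K a c := by
  obtain ⟨w, h1, h2, h3⟩ := h
  obtain ⟨w', h4, h5, h6⟩ := h'
  refine ⟨w + w', h1.add h4, Supp.add h2 h5, ?_⟩
  rw [map_add, h3, h6]
  abel

lemma Rc.symm {K : Set X} {a b : X} (h : Rc k K a b) : Rc k K b a := by
  obtain ⟨w, h1, h2, h3⟩ := h
  refine ⟨-w, h1.neg, Supp.neg h2, ?_⟩
  rw [map_neg, h3]
  abel

lemma rc_edge {K : Set X} (S : Ch X) (hS : InU K S) (hc : S.1.card = 2) {u v : X} (hu : u ∈ S.1)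
    (hv : v ∈ S.1) : Rc k K u v := by
  have key : ∀ a b : X, a < b → a ∈ S.1 → b ∈ S.1 → Rc k K a b := by
    intro a b hab ha hb
    have hS' : S.1 = {a, b} := by
      symm
      refine Finset.eq_of_subset_of_card_le ?_ ?_
      · intro x hx
        rcases Finset.mem_insert.1 hx with rfl | hx
        · exact ha
        · rw [Finset.mem_singleton.1 hx]
          exact hb
      · rw [hc, Finset.card_pair hab.ne]
    exact ⟨dl k S, Supp.dl hS, Supp.dl hc, bd_edge S hab hS'⟩
  by_cases huv : u = v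
  · rw [huv]
    exact Rc.refl _ _
  · rcases S.2 (Finset.mem_coe.2 hu) (Finset.mem_coe.2 hv) huv with h | h
    · exact key u v (lt_of_le_of_ne h huv) hu hv
    · exact (key v u (lt_of_le_of_ne h (Ne.symm huv)) hv hu).symm

/-- restriction to the chains avoiding `D` -/
def rs (k : Type*) [Field k] {X : Type*} [PartialOrder X] (D : Set X) :
    (Ch X →₀ k) →ₗ[k] (Ch X →₀ k) := opOf fun S => if ∀ z ∈ S.1, z ∉ D then dl k S else 0

lemma rs_dl (D : Set X) (S : Ch X) :
    rs k D (dl k S) = if ∀ z ∈ S.1, z ∉ D then dl k S else 0 := opOf_dl _ S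

lemma rs_apply (D : Set X) (w : Ch X →₀ k) (S : Ch X) (hS : ∀ z ∈ S.1, z ∉ D) :
    rs k D w S = w S := by
  have : (Finsupp.lapply S).comp (rs k D) = (Finsupp.lapply S : (Ch X →₀ k) →ₗ[k] k) := by
    refine ext_dl fun T => ?_
    rw [LinearMap.comp_apply, rs_dl, Finsupp.lapply_apply, Finsupp.lapply_apply]
    split_ifs with h
    · rfl
    · rw [Finsupp.zero_apply, dl_ne]
      rintro rfl
      exact h hS
  exact congrArg (fun A : (Ch X →₀ k) →ₗ[k] k => A w) this

/-- The vertices of a chain with boundary `b - a` can be reached from `a`. -/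
lemma rc_of_fill {U K : Set X} (hKU : K ⊆ U)
    (h3 : ∀ a ∈ U, ∀ b ∈ U, ∀ c ∈ U, a < b → ¬ b < c) (hex : GEx k U) {a b : X}
    {w : Ch X →₀ k} (hw : Supp (InU K) w) (hw2 : Hom 2 w)
    (hb : bd k X w = dl k (sg b) - dl k (sg a)) {S : Ch X} (hS : S ∈ w.support) {y : X}
    (hy : y ∈ S.1) : Rc k K a y := by
  by_contra hcon
  set D : Set X := {z | Rc k K a z} with hD
  have hpair : ∀ T : Ch X, InU K T → T.1.card = 2 →
      (∀ z ∈ T.1, z ∉ D) ∨ (∀ z ∈ T.1, z ∈ D) := by
    intro T hT hT2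
    by_cases h : ∀ z ∈ T.1, z ∉ D
    · exact Or.inl h
    · right
      push Not at h
      obtain ⟨z, hz, hzD⟩ := h
      intro u hu
      exact Rc.trans hzD (rc_edge T hT hT2 hz hu)
  -- the restriction commutes with the boundary on `w`
  have hcomm : bd k X (rs k D w) = rs k D (bd k X w) := by
    have hw' : Supp (fun T : Ch X => InU K T ∧ T.1.card = 2) w := by
      intro T hT
      by_contra hne
      have hT' : T ∈ w.support := Finsupp.mem_support_iff.mpr hne
      exact hT ⟨hw.mem hT', Supp.mem hw2 hT'⟩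
    have := Supp.eq (A := (bd k X).comp (rs k D)) (B := (rs k D).comp (bd k X))
      (R := fun T : Ch X => InU K T ∧ T.1.card = 2) (fun T hT => ?_) hw'
    · exact this
    · rw [LinearMap.comp_apply, LinearMap.comp_apply, rs_dl, bd_dl, map_sum]
      rcases hpair T hT.1 hT.2 with h | h
      · rw [if_pos h, bd_dl]
        refine Finset.sum_congr rfl fun x hx => ?_
        rw [map_smul, rs_dl, if_pos]
        intro z hz
        exact h z (Finset.mem_of_mem_erase hz)
      · have hne : T.1.Nonempty := by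
          rw [← Finset.card_pos, hT.2]
          norm_num
        obtain ⟨z0, hz0⟩ := hne
        rw [if_neg (fun h' => h' z0 hz0 (h z0 hz0)), map_zero]
        symm
        refine Finset.sum_eq_zero fun x hx => ?_
        rw [map_smul, rs_dl, if_neg, smul_zero]
        intro h'
        have hc : (er T x).1.card = 1 := by
          rw [er_coe, Finset.card_erase_of_mem hx, hT.2]
        obtain ⟨z, hz⟩ := Finset.card_pos.1 (by rw [hc]; norm_num : 0 < (er T x).1.card)
        exact h' z hz (h z (Finset.mem_of_mem_erase hz))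
  have hzero : bd k X (rs k D w) = 0 := by
    have haD : a ∈ D := Rc.refl _ _
    have hbD : b ∈ D := ⟨w, hw, hw2, hb⟩
    rw [hcomm, hb, map_sub, rs_dl, rs_dl, if_neg, if_neg, sub_self]
    · intro h
      exact h a (by simp [sg]) haD
    · intro h
      exact h b (by simp [sg]) hbD
  have hsuppr : Supp (InU U) (rs k D w) := by
    refine Supp.map (fun T hT => ?_) hw
    rw [rs_dl]
    split_ifs
    · exact Supp.dl fun x hx => hKU (hT hx)
    · exact Supp.zero _
  have hhom : Hom 2 (rs k D w) := by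
    refine Supp.map (fun T hT => ?_) hw2
    rw [rs_dl]
    split_ifs
    · exact Supp.dl hT
    · exact Supp.zero _
  have h0 := uniq h3 hex hsuppr hhom hzero
  have hSK := hw.mem hS
  have hS2 : S.1.card = 2 := Supp.mem hw2 hS
  rcases hpair S hSK hS2 with h | h
  · have h1 := rs_apply D w S h
    rw [h0, Finsupp.zero_apply] at h1
    exact (Finsupp.mem_support_iff.mp hS) h1.symm
  · exact hcon (h y hy)

theorem exists_fixed_tree (F : X ≃o X) (U : Set X) (hn : FinLen X)
    (h3 : ∀ a ∈ U, ∀ b ∈ U, ∀ c ∈ U, a < b → ¬ b < c) (hFU : ∀ x ∈ U, F x ∈ U)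
    (hper : ∀ x ∈ U, ∃ n, 0 < n ∧ F^[n] x = x) (hex : GEx k U) : ∃ x ∈ U, F x = x := by
  -- a point
  obtain ⟨x0, hx0⟩ : ∃ x, x ∈ U := by
    obtain ⟨w, hw1, hw2, hw3⟩ := hex 0 (dl k (emp : Ch X)) (Supp.dl (by
      intro x hx
      simp [emp] at hx)) (Supp.dl (by simp [emp])) bd_emp
    have hw : w ≠ 0 := by
      rintro rfl
      rw [map_zero] at hw3
      have := congrArg (fun v : Ch X →₀ k => v emp) hw3
      simp only [Finsupp.zero_apply, dl_self] at this
      exact zero_ne_one this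
    obtain ⟨S, hS⟩ := Finsupp.support_nonempty_iff.mpr hw
    have hc : S.1.card = 1 := Supp.mem hw2 hS
    obtain ⟨x, hx⟩ := Finset.card_pos.1 (by rw [hc]; norm_num : 0 < S.1.card)
    exact ⟨x, hw1.mem hS (Finset.mem_coe.2 hx)⟩
  -- fillings
  have hc : ∀ a b : X, ∃ w : Ch X →₀ k, a ∈ U → b ∈ U →
      Supp (InU U) w ∧ Hom 2 w ∧ bd k X w = dl k (sg b) - dl k (sg a) := by
    intro a b
    by_cases h : a ∈ U ∧ b ∈ U
    · obtain ⟨w, hw⟩ := exists_fill hex h.1 h.2
      exact ⟨w, fun _ _ => hw⟩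
    · exact ⟨0, fun h1 h2 => absurd ⟨h1, h2⟩ h⟩
  choose c hc using hc
  have hact : ∀ x : X, act (mapCh F) (dl k (sg x)) = dl k (sg (F x)) := by
    intro x
    rw [act_dl]
    congr 1
  have hequi : ∀ a ∈ U, ∀ b ∈ U, act (mapCh F) (c a b) = c (F a) (F b) := by
    intro a ha b hb
    obtain ⟨h1, h2, h4⟩ := hc a b ha hb
    obtain ⟨h1', h2', h4'⟩ := hc (F a) (F b) (hFU a ha) (hFU b hb)
    have h5 : act (mapCh F) (c a b) - c (F a) (F b) = 0 := by
      refine uniq h3 hex (Supp.sub ?_ h1') (Supp.sub ?_ h2') ?_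
      · refine Supp.map (fun S hS => ?_) h1
        rw [act_dl]
        refine Supp.dl ?_
        intro y hy
        rw [Finset.mem_coe, mapCh_coe, Finset.mem_map] at hy
        obtain ⟨z, hz, rfl⟩ := hy
        exact hFU z (hS hz)
      · refine Supp.map (fun S hS => ?_) h2
        rw [act_dl]
        refine Supp.dl ?_
        rw [mapCh_card]
        exact hS
      · rw [map_sub, ← act_bd, h4, h4', map_sub, hact, hact, sub_self]
    exact sub_eq_zero.1 h5
  -- the orbit
  obtain ⟨n, hn0, hnx⟩ := hper x0 hx0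
  set O : Set X := Set.range (fun i : ℕ => F^[i] x0) with hO
  have hOU : ∀ x ∈ O, x ∈ U := by
    rintro _ ⟨i, rfl⟩
    dsimp only
    induction i with
    | zero => exact hx0
    | succ i ih =>
      rw [Function.iterate_succ_apply']
      exact hFU _ ih
  have hFO : ∀ x ∈ O, F x ∈ O := by
    rintro _ ⟨i, rfl⟩
    exact ⟨i + 1, Function.iterate_succ_apply' _ _ _⟩
  have hOfin : O.Finite := by
    refine Set.Finite.subset ((Finset.range n).image (fun i : ℕ => F^[i] x0)).finite_toSet ?_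
    rintro _ ⟨i, rfl⟩
    rw [Finset.mem_coe, Finset.mem_image]
    refine ⟨i % n, Finset.mem_range.2 (Nat.mod_lt _ hn0), ?_⟩
    exact Function.IsPeriodicPt.iterate_mod_apply (show Function.IsPeriodicPt F n x0 from hnx) i
  have hx0O : x0 ∈ O := ⟨0, rfl⟩
  set K : Set X := {y | ∃ a ∈ O, ∃ b ∈ O, y = a ∨ ∃ S ∈ (c a b).support, y ∈ S.1} with hK
  have hOK : ∀ a ∈ O, a ∈ K := fun a ha => ⟨a, ha, a, ha, Or.inl rfl⟩
  have hKU : K ⊆ U := by
    rintro y ⟨a, ha, b, hb, rfl | ⟨S, hS, hy⟩⟩
    · exact hOU _ ha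
    · exact (hc a b (hOU a ha) (hOU b hb)).1.mem hS (Finset.mem_coe.2 hy)
  have hKfin : K.Finite := by
    have h1 : (⋃ a ∈ O, ⋃ b ∈ O, (({a} : Set X) ∪ ⋃ S ∈ (c a b).support, (S.1 : Set X))).Finite := by
      refine hOfin.biUnion fun a _ => hOfin.biUnion fun b _ => (Set.finite_singleton a).union ?_
      exact (c a b).support.finite_toSet.biUnion fun S _ => S.1.finite_toSet
    refine h1.subset ?_
    rintro y ⟨a, ha, b, hb, h⟩
    simp only [Set.mem_iUnion]
    refine ⟨a, ha, b, hb, ?_⟩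
    rcases h with rfl | ⟨S, hS, hy⟩
    · exact Or.inl rfl
    · right
      simp only [Set.mem_iUnion]
      exact ⟨S, hS, Finset.mem_coe.2 hy⟩
  have hFK : ∀ y ∈ K, F y ∈ K := by
    rintro y ⟨a, ha, b, hb, rfl | ⟨S, hS, hy⟩⟩
    · exact hOK _ (hFO _ ha)
    · refine ⟨F a, hFO a ha, F b, hFO b hb, Or.inr ⟨mapCh F S, ?_, ?_⟩⟩
      · rw [← hequi a (hOU a ha) b (hOU b hb), Finsupp.mem_support_iff, act_apply]
        exact Finsupp.mem_support_iff.mp hS
      · rw [mem_mapCh]
        exact hy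
  -- `K` is connected
  have hcK : ∀ a ∈ O, ∀ b ∈ O, Supp (InU K) (c a b) := by
    intro a ha b hb S hS
    by_contra hne
    apply hS
    intro y hy
    exact ⟨a, ha, b, hb, Or.inr ⟨S, Finsupp.mem_support_iff.mpr hne, Finset.mem_coe.1 hy⟩⟩
  have hconn : ∀ y ∈ K, Rc k K x0 y := by
    rintro y ⟨a, ha, b, hb, h⟩
    have h0 : Rc k K x0 a := by
      obtain ⟨-, h2, h4⟩ := hc x0 a hx0 (hOU a ha)
      exact ⟨c x0 a, hcK x0 hx0O a ha, h2, h4⟩
    rcases h with rfl | ⟨S, hS, hy⟩
    · exact h0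
    · obtain ⟨-, h2, h4⟩ := hc a b (hOU a ha) (hOU b hb)
      exact h0.trans (rc_of_fill hKU h3 hex (hcK a ha b hb) h2 h4 hS hy)
  -- `K` is acyclic
  have hexK : GEx k K := by
    intro i v hv hvi hbd
    have hvU : Supp (InU U) v := Supp.mono (fun S hS => hS.trans hKU) hv
    match i, hvi with
    | 0, hvi =>
      refine ⟨v emp • dl k (sg x0), Supp.smul _ (supp_sg (hOK x0 hx0O)),
        Supp.smul _ (hom_sg x0), ?_⟩
      rw [map_smul, bd_sg]
      ext S
      rw [Finsupp.smul_apply, smul_eq_mul, dl_apply]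
      by_cases hS : S = emp
      · rw [if_pos hS, mul_one, hS]
      · rw [if_neg hS, mul_zero]
        symm
        refine hvi S ?_
        intro h
        exact hS (Subtype.ext (Finset.card_eq_zero.1 h))
    | 1, hvi =>
      have hvert : ∀ S ∈ v.support, ∃ y ∈ K, S = sg y := by
        intro S hS
        have h1 : S.1.card = 1 := Supp.mem hvi hS
        obtain ⟨y, hy⟩ := Finset.card_eq_one.1 h1
        refine ⟨y, hv.mem hS ?_, Subtype.ext hy⟩
        rw [hy]
        simp
      have hw : ∀ S : Ch X, ∃ w : Ch X →₀ k, S ∈ v.support →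
          Supp (InU K) w ∧ Hom 2 w ∧ bd k X w = dl k S - dl k (sg x0) := by
        intro S
        by_cases hS : S ∈ v.support
        · obtain ⟨y, hy, rfl⟩ := hvert S hS
          obtain ⟨w, hw⟩ := hconn y hy
          exact ⟨w, fun _ => hw⟩
        · exact ⟨0, fun h => absurd h hS⟩
      choose w hw using hw
      refine ⟨∑ S ∈ v.support, v S • w S, Supp.sum _ _ fun S hS => Supp.smul _ (hw S hS).1,
        Supp.sum _ _ fun S hS => Supp.smul _ (hw S hS).2.1, ?_⟩
      have hsum : ∑ S ∈ v.support, v S = 0 := by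
        have h1 := hbd
        rw [map_eq_sum] at h1
        have h2 : ∑ S ∈ v.support, v S • bd k X (dl k S) =
            ∑ S ∈ v.support, v S • dl k (emp : Ch X) := by
          refine Finset.sum_congr rfl fun S hS => ?_
          obtain ⟨y, -, rfl⟩ := hvert S hS
          rw [bd_sg]
        rw [h2, ← Finset.sum_smul] at h1
        have h4 := congrArg (fun u : Ch X →₀ k => u emp) h1
        simp only [Finsupp.smul_apply, dl_self, smul_eq_mul, mul_one, Finsupp.zero_apply] at h4
        exact h4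
      rw [map_sum]
      have h5 : ∑ S ∈ v.support, bd k X (v S • w S) =
          ∑ S ∈ v.support, v S • dl k S - (∑ S ∈ v.support, v S) • dl k (sg x0) := by
        rw [Finset.sum_smul, ← Finset.sum_sub_distrib]
        refine Finset.sum_congr rfl fun S hS => ?_
        rw [map_smul, (hw S hS).2.2, smul_sub]
      rw [h5, hsum, zero_smul, sub_zero, ← eq_sum_dl]
    | 2, hvi =>
      refine ⟨0, Supp.zero _, Supp.zero _, ?_⟩
      rw [map_zero, uniq h3 hex hvU hvi hbd]
    | i + 3, hvi =>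
      refine ⟨0, Supp.zero _, Supp.zero _, ?_⟩
      rw [map_zero, hom_zero h3 (by omega) hvU hvi]
  obtain ⟨M, hM1, hM2⟩ := exists_contraction _ (hexK.exOn hn)
  obtain ⟨x, hx, hfx⟩ := exists_fixed F K hKfin hFK M hM1 hM2
  exact ⟨x, hKU hx, hfx⟩

end

end Pool.Agent.Helper43.SP.FK.Tree
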